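import Pool.Agent.H37.IS.Stm

set_option autoImplicit false

open Finset

namespace H88.IS

open H37.IS

/-- SLF: the left region. -/
theorem t_SLF (hBA1 : S_BA1) (hSNM : S_SNM) : S_SLF := by
  classical
  intro ι F N c a s i0 hF k p hp hN hk
  have hterm : ∀ i ∈ F, ¬ (s i ≤ k ∧ N - a i ≤ 2 * (k - s i)) →
      ch (N - a i) k (s i) ≤ ch (N - a i) (k + 1) (s i) := by
    intro i _ hg
    unfold ch
    by_cases h1 : s i ≤ k
    · have h2 : ¬ (N - a i ≤ 2 * (k - s i)) := fun h => hg ⟨h1, h⟩
      rw [if_pos h1, if_pos (by omega), show k + 1 - s i = (k - s i) + 1 by omega]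
      exact hBA1.1 _ _ (by omega)
    · rw [if_neg h1]; exact Nat.zero_le _
  rcases Nat.eq_zero_or_pos k with hk0 | hkpos
  · subst hk0
    refine Finset.sum_le_sum fun i hi => hterm i hi ?_
    rintro ⟨h1, h2⟩
    have h3 : i = i0 := hF.huniq i hi (by omega)
    subst h3
    have := hF.ha0
    omega
  · set B := F.filter (fun i => s i ≤ k ∧ N - a i ≤ 2 * (k - s i)) with hB
    set G := F.filter (fun i => ¬ (s i ≤ k ∧ N - a i ≤ 2 * (k - s i))) with hG
    have hi0G : i0 ∈ G := by
      rw [hG, mem_filter]
      refine ⟨hF.h0, ?_⟩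
      rintro ⟨h1, h2⟩
      have := hF.ha0
      have := hF.hs0
      omega
    have hsplit : ∀ f : ι → ℕ, ∑ i ∈ F, f i = ∑ i ∈ B, f i + ∑ i ∈ G, f i := fun f =>
      (Finset.sum_filter_add_sum_filter_not F _ f).symm
    have hBsum : ∑ i ∈ B, ch (N - a i) k (s i) ≤ (c + 2 * k - 2).choose k := by
      have hb1 : ∀ i ∈ B, ch (N - a i) k (s i) ≤ (2 * k - 2).choose (k - s i) := by
        intro i hi
        rw [hB, mem_filter] at hi
        obtain ⟨hiF, h1, h2⟩ := hi
        have h3 : 1 ≤ s i := by
          by_contra h
          have h4 : i = i0 := hF.huniq i hiF (by omega)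
          subst h4
          have := hF.ha0
          omega
        unfold ch
        rw [if_pos h1]
        exact Nat.choose_le_choose _ (by omega)
      have hmaps : ∀ i ∈ B, s i ∈ range (k + 1) := by
        intro i hi
        rw [hB, mem_filter] at hi
        rw [mem_range]; omega
      calc ∑ i ∈ B, ch (N - a i) k (s i) ≤ ∑ i ∈ B, (2 * k - 2).choose (k - s i) :=
            Finset.sum_le_sum hb1
        _ = ∑ j ∈ range (k + 1), ∑ i ∈ B.filter (fun i => s i = j),
              (2 * k - 2).choose (k - s i) := (Finset.sum_fiberwise_of_maps_to hmaps _).symm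
        _ = ∑ j ∈ range (k + 1), (B.filter (fun i => s i = j)).card *
              (2 * k - 2).choose (k - j) := by
            refine Finset.sum_congr rfl fun j _ => ?_
            rw [Finset.sum_congr rfl (g := fun _ => (2 * k - 2).choose (k - j))
              (fun i hi => by rw [(mem_filter.1 hi).2])]
            rw [Finset.sum_const, smul_eq_mul]
        _ ≤ ∑ j ∈ range (k + 1), c.choose j * (2 * k - 2).choose (k - j) := by
            refine Finset.sum_le_sum fun j _ => Nat.mul_le_mul_right _ ?_
            refine le_trans (Finset.card_le_card ?_) (hF.hcount j)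
            exact Finset.filter_subset_filter _ (Finset.filter_subset _ _)
        _ = (c + (2 * k - 2)).choose k := by
            rw [Nat.add_choose_eq, Finset.Nat.sum_antidiagonal_eq_sum_range_succ
              (fun x y => c.choose x * (2 * k - 2).choose y)]
        _ = (c + 2 * k - 2).choose k := by
            congr 1; omega
    have hnum := hSNM N c k p hp hN hkpos hk
    unfold sumch
    rw [hsplit, hsplit, ← Finset.add_sum_erase G _ hi0G,
      ← Finset.add_sum_erase G (fun i => ch (N - a i) (k + 1) (s i)) hi0G]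
    have e0 : ch (N - a i0) k (s i0) = N.choose k := by
      unfold ch; rw [hF.ha0, hF.hs0]; simp
    have e1 : ch (N - a i0) (k + 1) (s i0) = N.choose (k + 1) := by
      unfold ch; rw [hF.ha0, hF.hs0]; simp
    have hGs : ∑ i ∈ G.erase i0, ch (N - a i) k (s i) ≤
        ∑ i ∈ G.erase i0, ch (N - a i) (k + 1) (s i) := by
      refine Finset.sum_le_sum fun i hi => ?_
      have h1 := (Finset.mem_erase.1 hi).2
      rw [hG, mem_filter] at h1
      exact hterm i h1.1 h1.2
    rw [e0, e1]
    omega

end H88.IS
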